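import Pool.Agent.Helper84.BT.Goals
import Pool.Agent.Helper7.BM.Fin2
import Pool.Agent.Helper3.BM.SGP

/-!
# Project BT (MP_57df85_nt), packet POL: the number of solutions with odd common value and `q ≤ X` is polylogarithmic
-/

set_option autoImplicit false

open Finset Filter Topology

namespace Pool.Agent.Helper79.BT.POL

open Pool.Agent.Helper84.BT
open Pool.Agent.Helper7.BM (sg Pr StmtPP StmtSGP IsSol mem_Pr count_gen exp_le)

/-- the inequalities for large `L` -/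
theorem ev (C0 : ℝ) (n0 M : ℕ) : ∀ᶠ L : ℝ in atTop, 1 ≤ Real.log L ∧ M * Real.log L ≤ L ∧
    C0 * L ^ 115 + 2 ≤ L ^ 116 ∧ (n0 : ℝ) ≤ L ∧ 100000 ≤ L := by
  have h1 : ∀ᶠ L : ℝ in atTop, 1 ≤ Real.log L := Real.tendsto_log_atTop.eventually_ge_atTop 1
  have h2 : ∀ᶠ L : ℝ in atTop, M * Real.log L ≤ L := by
    have := (Real.isLittleO_log_id_atTop).bound (show (0 : ℝ) < 1 / ((M : ℝ) + 1) by positivity)
    filter_upwards [this, h1, eventually_ge_atTop (0 : ℝ)] with L hL h1 h0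
    rw [Real.norm_of_nonneg (by linarith), id, Real.norm_of_nonneg h0, div_mul_eq_mul_div, one_mul,
      le_div_iff₀ (by positivity)] at hL
    linarith
  have h3 : ∀ᶠ L : ℝ in atTop, C0 * L ^ 115 + 2 ≤ L ^ 116 := by
    filter_upwards [eventually_ge_atTop (|C0| + 2)] with L hL
    have hL1 : 1 ≤ L := by linarith [abs_nonneg C0]
    have h4 : (1 : ℝ) ≤ L ^ 115 := one_le_pow₀ hL1
    have h5 : C0 ≤ |C0| := le_abs_self _
    calc C0 * L ^ 115 + 2 ≤ |C0| * L ^ 115 + 2 * L ^ 115 := by nlinarith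
      _ = (|C0| + 2) * L ^ 115 := by ring
      _ ≤ L * L ^ 115 := by
        apply mul_le_mul_of_nonneg_right hL (by linarith)
      _ = L ^ 116 := by ring
  filter_upwards [h1, h2, h3, eventually_ge_atTop (n0 : ℝ), eventually_ge_atTop (100000 : ℝ)] with
    L a b c d e
  exact ⟨a, b, c, d, e⟩

/-- the condition on the solutions counted first -/
def R (X : ℕ) (s : ℕ × ℕ × ℕ × ℕ) : Prop := Odd (sg s.1 s.2.1) ∧ X < s.2.2.1 ^ 2

/-- the condition on the solutions -/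
def RO (s : ℕ × ℕ × ℕ × ℕ) : Prop := Odd (sg s.1 s.2.1)

/-- the main estimate for one pair of exponents -/
theorem one_pair
    (hR : ∀ d α β x y : ℕ, 2 ≤ d → 1 ≤ β → β < α → 2 ≤ x → x < y →
      sg x (d * α) = sg y (d * β) → x ≤ 4 * (2 * α + 3) ^ α * d ^ α)
    (hC : ∀ K Y X a b d α β : ℕ, 2 ≤ K → 1 ≤ Y → X ≤ Y ^ K →
      2 ^ (3 * Y ^ 2) ≤ (∏ l ∈ (Ioc (3 * Y ^ 2) ((3 * Y ^ 2) ^ 2)).filter Nat.Prime, l) →
      0 < d → 0 < β → Nat.Coprime α β → a = d * α → b = d * β → K ≤ α → b ≤ a →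
      b ^ 2 * X ^ b < 2 ^ (3 * Y ^ 2) → (Pr a b X).card ≤ 324 * a ^ 3 * Y ^ 8)
    (hEVN : S_EVN) (hPAR : S_PAR) (hTH1 : S_TH1)
    {A K Y X a b : ℕ} (hA : 1 ≤ A) (hK : 2 ≤ K) (hY : 1 ≤ Y) (hXY : X ≤ Y ^ K)
    (hKX : (80 * A) ^ (200 * K) ≤ X)
    (hP : 2 ^ (3 * Y ^ 2) ≤ (∏ l ∈ (Ioc (3 * Y ^ 2) ((3 * Y ^ 2) ^ 2)).filter Nat.Prime, l))
    (hX : 1 ≤ X) (hAX : A ^ 2 * X ^ A < 2 ^ (3 * Y ^ 2)) (ha : a ≤ A) (hb : 1 ≤ b) (hba : b < a)
    {z : ℕ × ℕ} (hz : IsSol X (z.1, a, z.2, b)) (hzR : R X (z.1, a, z.2, b)) :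
    (Pr a b X).card ≤ 324 * A ^ 3 * Y ^ 8 := by
  obtain ⟨p, q⟩ := z
  obtain ⟨h1, h2, h3, h4, h5, h6, h7⟩ := hz
  obtain ⟨hodd, hXq⟩ := hzR
  simp only at h1 h2 h3 h4 h5 h6 h7 hodd hXq
  obtain ⟨hp1, hp2⟩ := hPAR hEVN p q a b h1 h2 h3 h5 h6 h7
  obtain ⟨s, t, hs, ht, has, hbt⟩ := hp2 (hp1.mp hodd)
  have hq : q < (4 * p) ^ 100 := by
    apply hTH1 p q s t h1.two_le h3 h2 hs ht
    rw [← has, ← hbt]; exact h7
  set d := Nat.gcd a b with hdd
  have hd0 : 0 < d := Nat.gcd_pos_of_pos_left _ (by omega)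
  have hd2 : 2 ≤ d := by
    have : 2 ∣ d := Nat.dvd_gcd ⟨s, has⟩ ⟨t, hbt⟩
    exact Nat.le_of_dvd hd0 this
  obtain ⟨α, hα⟩ : d ∣ a := Nat.gcd_dvd_left a b
  obtain ⟨β, hβ⟩ : d ∣ b := Nat.gcd_dvd_right a b
  have hαa : a / d = α := by rw [hα, Nat.mul_div_cancel_left _ hd0]
  have hβb : b / d = β := by rw [hβ, Nat.mul_div_cancel_left _ hd0]
  have hcop : Nat.Coprime α β := by
    have := Nat.coprime_div_gcd_div_gcd (m := a) (n := b) hd0
    rwa [← hdd, hαa, hβb] at this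
  have hβ0 : 0 < β := by
    rcases Nat.eq_zero_or_pos β with h | h
    · rw [h, mul_zero] at hβ; omega
    · exact h
  have hβα : β < α := by
    by_contra hc
    have : d * α ≤ d * β := Nat.mul_le_mul_left _ (by omega)
    omega
  have hpb : p ≤ 4 * (2 * α + 3) ^ α * d ^ α := by
    apply hR d α β p q hd2 hβ0 hβα h1.two_le h3
    rw [← hα, ← hβ]; exact h7
  have hpb2 : 4 * p ≤ (80 * A) ^ α := by
    have e1 : (2 * α + 3) ^ α * d ^ α ≤ (5 * A) ^ α := by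
      rw [← mul_pow]
      apply Nat.pow_le_pow_left
      have e2 : (2 * α + 3) * d ≤ (5 * α) * d := Nat.mul_le_mul_right _ (by omega)
      have e3 : (5 * α) * d = 5 * a := by rw [hα]; ring
      omega
    have e4 : 16 ≤ 16 ^ α := by
      calc 16 = 16 ^ 1 := (pow_one _).symm
        _ ≤ 16 ^ α := Nat.pow_le_pow_right (by norm_num) (by omega)
    calc 4 * p ≤ 4 * (4 * (2 * α + 3) ^ α * d ^ α) := Nat.mul_le_mul_left _ hpb
      _ = 16 * ((2 * α + 3) ^ α * d ^ α) := by ring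
      _ ≤ 16 ^ α * (5 * A) ^ α := Nat.mul_le_mul e4 e1
      _ = (80 * A) ^ α := by rw [← mul_pow]; congr 1; ring
  have hKα : K ≤ α := by
    by_contra hc
    have e1 : X < ((4 * p) ^ 100) ^ 2 := lt_of_lt_of_le hXq (Nat.pow_le_pow_left hq.le 2)
    have e2 : ((4 * p) ^ 100) ^ 2 ≤ (80 * A) ^ (200 * K) := by
      calc ((4 * p) ^ 100) ^ 2 = (4 * p) ^ 200 := by rw [← pow_mul]
        _ ≤ ((80 * A) ^ α) ^ 200 := Nat.pow_le_pow_left hpb2 200
        _ = (80 * A) ^ (α * 200) := by rw [← pow_mul]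
        _ ≤ (80 * A) ^ (200 * K) := Nat.pow_le_pow_right (by omega) (by omega)
    omega
  have hbA : b ≤ A := by omega
  have k1 : b ^ 2 * X ^ b < 2 ^ (3 * Y ^ 2) := by
    refine lt_of_le_of_lt ?_ hAX
    exact Nat.mul_le_mul (Nat.pow_le_pow_left hbA 2) (Nat.pow_le_pow_right hX hbA)
  have k2 := hC K Y X a b d α β hK hY hXY hP hd0 hβ0 hcop hα hβ hKα hba.le k1
  have k3 : 324 * a ^ 3 * Y ^ 8 ≤ 324 * A ^ 3 * Y ^ 8 :=
    Nat.mul_le_mul_right _ (Nat.mul_le_mul_left _ (Nat.pow_le_pow_left ha 3))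
  exact k2.trans k3

open Classical in
/-- the main estimate for large `X` -/
theorem large
    {C0 : ℝ} (hC0 : 0 < C0)
    (hE : ∀ p q a b : ℕ, p.Prime → q.Prime → p < q → 1 ≤ a → 1 ≤ b → sg p a = sg q b →
      (a : ℝ) ≤ C0 * Real.log q ^ 115)
    (hR : ∀ d α β x y : ℕ, 2 ≤ d → 1 ≤ β → β < α → 2 ≤ x → x < y →
      sg x (d * α) = sg y (d * β) → x ≤ 4 * (2 * α + 3) ^ α * d ^ α)
    (hC : ∀ K Y X a b d α β : ℕ, 2 ≤ K → 1 ≤ Y → X ≤ Y ^ K →
      2 ^ (3 * Y ^ 2) ≤ (∏ l ∈ (Ioc (3 * Y ^ 2) ((3 * Y ^ 2) ^ 2)).filter Nat.Prime, l) →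
      0 < d → 0 < β → Nat.Coprime α β → a = d * α → b = d * β → K ≤ α → b ≤ a →
      b ^ 2 * X ^ b < 2 ^ (3 * Y ^ 2) → (Pr a b X).card ≤ 324 * a ^ 3 * Y ^ 8)
    (hEVN : S_EVN) (hPAR : S_PAR) (hTH1 : S_TH1) (hS : StmtSGP)
    {n0 : ℕ} (hPP : ∀ n : ℕ, n0 ≤ n → 2 ^ n ≤ ∏ l ∈ (Ioc n (n ^ 2)).filter Nat.Prime, l)
    {X M : ℕ} (hM : M = 46800) (hX : 3 ≤ X)
    (h1 : 1 ≤ Real.log (Real.log X)) (h2 : M * Real.log (Real.log X) ≤ Real.log X)
    (h3 : C0 * Real.log X ^ 115 + 2 ≤ Real.log X ^ 116) (h4 : (n0 : ℝ) ≤ Real.log X)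
    (h5 : 100000 ≤ Real.log X) :
    {s : ℕ × ℕ × ℕ × ℕ | IsSol X s ∧ R X s}.Finite ∧
      (({s : ℕ × ℕ × ℕ × ℕ | IsSol X s ∧ R X s}.ncard : ℕ) : ℝ) ≤
        Real.log X ^ (581 + 8 * M) := by
  set L : ℝ := Real.log X with hL
  set l : ℝ := Real.log L with hl
  have hX0 : (0 : ℝ) < X := by exact_mod_cast (by omega : 0 < X)
  have hL0 : 0 < L := by linarith
  have hL1 : 1 ≤ L := by linarith
  have hl0 : 0 < l := by linarith
  have expL : Real.exp L = X := Real.exp_log hX0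
  have expl : Real.exp l = L := Real.exp_log hL0
  have hMr : (M : ℝ) = 46800 := by rw [hM]; norm_num
  set A : ℕ := ⌊C0 * L ^ 115⌋₊ + 1 with hA
  set K : ℕ := ⌊L / (23400 * l)⌋₊ with hK
  set Y : ℕ := ⌈L ^ M⌉₊ with hY
  have hA1 : 1 ≤ A := by omega
  have hAr : (A : ℝ) + 1 ≤ L ^ 116 := by
    have : ((⌊C0 * L ^ 115⌋₊ : ℕ) : ℝ) ≤ C0 * L ^ 115 := Nat.floor_le (by positivity)
    rw [hA]; push_cast; linarith
  have hApos : (0 : ℝ) < A := by exact_mod_cast hA1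
  have hAL : (A : ℝ) ≤ L ^ 116 := by linarith
  have hdiv2 : 2 ≤ L / (23400 * l) := by
    rw [le_div_iff₀ (by positivity)]
    rw [hMr] at h2
    linarith
  have hKle : (K : ℝ) ≤ L / (23400 * l) := Nat.floor_le (by positivity)
  have hK2 : 2 ≤ K := Nat.le_floor (by exact_mod_cast hdiv2)
  have hKl : (K : ℝ) * (23400 * l) ≤ L := by
    rwa [le_div_iff₀ (by positivity)] at hKle
  have hKge : L ≤ (M : ℝ) * l * K := by
    have e1 : L / (23400 * l) < (K : ℝ) + 1 := Nat.lt_floor_add_one _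
    have e2 : L / (23400 * l) ≤ 2 * K := by
      have : (2 : ℝ) ≤ K := by exact_mod_cast hK2
      linarith
    rw [div_le_iff₀ (by positivity)] at e2
    rw [hMr]
    linarith
  have hLM1 : 1 ≤ L ^ M := one_le_pow₀ hL1
  have hYge : L ^ M ≤ Y := Nat.le_ceil _
  have hYle : (Y : ℝ) ≤ 2 * L ^ M := by
    have := Nat.ceil_lt_add_one (show 0 ≤ L ^ M by positivity)
    linarith
  have hY1 : 1 ≤ Y := by
    have : (1 : ℝ) ≤ Y := hLM1.trans hYge
    exact_mod_cast this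
  have hXY : X ≤ Y ^ K := by
    have : (X : ℝ) ≤ (Y : ℝ) ^ K := by
      calc (X : ℝ) = Real.exp L := expL.symm
        _ ≤ Real.exp ((M : ℝ) * l * K) := Real.exp_le_exp.mpr hKge
        _ = (L ^ M) ^ K := by
          rw [mul_comm, Real.exp_nat_mul, Real.exp_nat_mul, expl]
        _ ≤ (Y : ℝ) ^ K := pow_le_pow_left₀ (by positivity) hYge K
    exact_mod_cast this
  have hKX : (80 * A) ^ (200 * K) ≤ X := by
    have : ((80 : ℝ) * A) ^ (200 * K) ≤ X := by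
      have e1 : (80 : ℝ) * A ≤ L ^ 117 := by
        calc (80 : ℝ) * A ≤ L * L ^ 116 := mul_le_mul (by linarith) hAL hApos.le hL0.le
          _ = L ^ 117 := by ring
      calc ((80 : ℝ) * A) ^ (200 * K) ≤ (L ^ 117) ^ (200 * K) :=
            pow_le_pow_left₀ (by positivity) e1 _
        _ = Real.exp ((K : ℝ) * (23400 * l)) := by
          rw [← pow_mul]
          have e2 : (K : ℝ) * (23400 * l) = ((117 * (200 * K) : ℕ) : ℝ) * l := by
            push_cast; ring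
          rw [e2, Real.exp_nat_mul, expl]
        _ ≤ Real.exp L := Real.exp_le_exp.mpr hKl
        _ = X := expL
    exact_mod_cast this
  have hYL : L ≤ Y := by
    have : L ≤ L ^ M := le_self_pow₀ hL1 (by omega)
    linarith
  have hn0 : n0 ≤ 3 * Y ^ 2 := by
    have : (n0 : ℝ) ≤ (Y : ℝ) := h4.trans hYL
    have h6 : n0 ≤ Y := by exact_mod_cast this
    nlinarith
  have hP := hPP (3 * Y ^ 2) hn0
  have hAX : A ^ 2 * X ^ A < 2 ^ (3 * Y ^ 2) := by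
    have e1 : (A : ℝ) ^ 2 * (X : ℝ) ^ A ≤ Real.exp (L ^ 118) := by
      have e2 : (A : ℝ) ≤ Real.exp (A : ℝ) := by
        have := Real.add_one_le_exp (A : ℝ); linarith
      have e3 : (A : ℝ) ^ 2 ≤ Real.exp (2 * A) := by
        calc (A : ℝ) ^ 2 ≤ (Real.exp A) ^ 2 := pow_le_pow_left₀ hApos.le e2 2
          _ = Real.exp (2 * A) := by rw [← Real.exp_nat_mul]; norm_num
      have e4 : (X : ℝ) ^ A = Real.exp (A * L) := by
        rw [← expL, ← Real.exp_nat_mul]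
      rw [e4]
      calc (A : ℝ) ^ 2 * Real.exp (A * L) ≤ Real.exp (2 * A) * Real.exp (A * L) :=
            mul_le_mul_of_nonneg_right e3 (Real.exp_pos _).le
        _ = Real.exp (2 * A + A * L) := (Real.exp_add _ _).symm
        _ ≤ Real.exp (L ^ 118) := by
          apply Real.exp_le_exp.mpr
          have e50 : 2 + L ≤ L ^ 2 := by nlinarith
          have e5 : 2 * (A : ℝ) + A * L ≤ A * L ^ 2 := by
            have := mul_le_mul_of_nonneg_left e50 hApos.le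
            linarith
          have e6 : (A : ℝ) * L ^ 2 ≤ L ^ 116 * L ^ 2 :=
            mul_le_mul_of_nonneg_right hAL (by positivity)
          have e7 : L ^ 116 * L ^ 2 = L ^ 118 := by ring
          linarith
    have e2 : Real.exp (L ^ 118) < (2 : ℝ) ^ (3 * Y ^ 2) := by
      have e3 : (2 : ℝ) ^ (3 * Y ^ 2) = Real.exp ((3 * Y ^ 2 : ℕ) * Real.log 2) := by
        rw [Real.exp_nat_mul, Real.exp_log (by norm_num)]
      rw [e3]
      apply Real.exp_lt_exp.mpr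
      have e4 : L ^ 118 ≤ L ^ M := pow_le_pow_right₀ hL1 (by omega)
      have e5 : (1 : ℝ) ≤ Y := by exact_mod_cast hY1
      have e6 := Real.log_two_gt_d9
      have e7 : (Y : ℝ) ≤ (Y : ℝ) ^ 2 := by nlinarith
      push_cast
      nlinarith
    have e3 : ((A ^ 2 * X ^ A : ℕ) : ℝ) < ((2 ^ (3 * Y ^ 2) : ℕ) : ℝ) := by
      push_cast
      exact lt_of_le_of_lt e1 e2
    exact_mod_cast e3
  obtain ⟨hfin, hcard⟩ := count_gen (R X) hS X A (324 * A ^ 3 * Y ^ 8) (exp_le hC0 hE X) (by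
    intro a b ha hb hba
    rcases Finset.eq_empty_or_nonempty
      ((Pr a b X).filter (fun z => IsSol X (z.1, a, z.2, b) ∧ R X (z.1, a, z.2, b))) with h | h
    · rw [h, card_empty]; exact Nat.zero_le _
    · obtain ⟨z, hz⟩ := h
      rw [mem_filter] at hz
      refine (card_filter_le _ _).trans ?_
      exact one_pair hR hC hEVN hPAR hTH1 hA1 hK2 hY1 hXY hKX hP (by omega) hAX ha hb hba
        hz.2.1 hz.2.2)
  refine ⟨hfin, ?_⟩
  have hc : (({s : ℕ × ℕ × ℕ × ℕ | IsSol X s ∧ R X s}.ncard : ℕ) : ℝ) ≤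
      ((A : ℝ) + 1) ^ 2 * (324 * (A : ℝ) ^ 3 * (Y : ℝ) ^ 8) := by exact_mod_cast hcard
  refine hc.trans ?_
  have b1 : ((A : ℝ) + 1) ^ 2 ≤ L ^ 232 := by
    calc ((A : ℝ) + 1) ^ 2 ≤ (L ^ 116) ^ 2 := pow_le_pow_left₀ (by positivity) hAr 2
      _ = L ^ 232 := by rw [← pow_mul]
  have b2 : (A : ℝ) ^ 3 ≤ L ^ 348 := by
    calc (A : ℝ) ^ 3 ≤ (L ^ 116) ^ 3 := pow_le_pow_left₀ (by positivity) hAL 3
      _ = L ^ 348 := by rw [← pow_mul]
  have b3 : (Y : ℝ) ^ 8 ≤ 256 * L ^ (8 * M) := by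
    calc (Y : ℝ) ^ 8 ≤ (2 * L ^ M) ^ 8 := pow_le_pow_left₀ (by positivity) hYle 8
      _ = 256 * L ^ (8 * M) := by
        rw [mul_pow, ← pow_mul, mul_comm M 8]; norm_num
  calc ((A : ℝ) + 1) ^ 2 * (324 * (A : ℝ) ^ 3 * (Y : ℝ) ^ 8)
      ≤ L ^ 232 * (324 * L ^ 348 * (256 * L ^ (8 * M))) := by
        apply mul_le_mul b1 _ (by positivity) (by positivity)
        apply mul_le_mul _ b3 (by positivity) (by positivity)
        exact mul_le_mul_of_nonneg_left b2 (by norm_num)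
    _ = 82944 * (L ^ 580 * L ^ (8 * M)) := by
        have : L ^ 580 = L ^ 232 * L ^ 348 := by rw [← pow_add]
        rw [this]; ring
    _ ≤ L * (L ^ 580 * L ^ (8 * M)) :=
        mul_le_mul_of_nonneg_right (by linarith) (by positivity)
    _ = L ^ (581 + 8 * M) := by
        rw [← pow_add, ← pow_succ']; congr 1; ring

open Classical in
/-- PACKET POL -/
theorem t : S_POL := by
  intro hE hR hC hPP hEVN hPAR hTH1
  have hS : StmtSGP := Pool.Agent.Helper3.BM.sgpol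
  obtain ⟨C0, hC0, hE⟩ := hE
  obtain ⟨n0, hPP⟩ := hPP
  obtain ⟨M, hM⟩ : ∃ M : ℕ, M = 46800 := ⟨_, rfl⟩
  have hev : ∀ᶠ X : ℕ in atTop, 1 ≤ Real.log (Real.log X) ∧
      M * Real.log (Real.log X) ≤ Real.log X ∧
      C0 * Real.log X ^ 115 + 2 ≤ Real.log X ^ 116 ∧ (n0 : ℝ) ≤ Real.log X ∧
      100000 ≤ Real.log X :=
    (Real.tendsto_log_atTop.comp tendsto_natCast_atTop_atTop).eventually (ev C0 n0 M)
  obtain ⟨X1, hX1⟩ := eventually_atTop.mp hev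
  set X2 := max X1 3 with hX2
  have hlarge : ∀ X : ℕ, X2 ≤ X → {s : ℕ × ℕ × ℕ × ℕ | IsSol X s ∧ R X s}.Finite ∧
      (({s : ℕ × ℕ × ℕ × ℕ | IsSol X s ∧ R X s}.ncard : ℕ) : ℝ) ≤
        Real.log X ^ (581 + 8 * M) := by
    intro X hX
    obtain ⟨a1, a2, a3, a4, a5⟩ := hX1 X (le_trans (le_max_left _ _) hX)
    exact large hC0 hE hR hC hEVN hPAR hTH1 hS hPP hM (le_trans (le_max_right _ _) hX)
      a1 a2 a3 a4 a5
  have hfin : ∀ X : ℕ, {s : ℕ × ℕ × ℕ × ℕ | IsSol X s ∧ RO s}.Finite := by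
    intro X
    refine (count_gen RO hS X _ ((X + 1) ^ 2) (exp_le hC0 hE X) ?_).1
    intro a b _ _ _
    refine (card_filter_le _ _).trans ?_
    unfold Pr
    refine (card_filter_le _ _).trans ?_
    rw [card_product, card_range, pow_two]
  obtain ⟨m, hm⟩ : ∃ m : ℕ, m = 581 + 8 * M := ⟨_, rfl⟩
  rw [← hm] at hlarge
  set N0 : ℕ := {s : ℕ × ℕ × ℕ × ℕ | IsSol X2 s ∧ RO s}.ncard with hN0
  have key : ∀ X : ℕ, 1 ≤ X → (({s : ℕ × ℕ × ℕ × ℕ | IsSol X s ∧ RO s}.ncard : ℕ) : ℝ) ≤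
      N0 + 2 * Real.log X ^ m := by
    intro X
    induction X using Nat.strong_induction_on with
    | _ X ih =>
      intro hX1
      have hXr : (1 : ℝ) ≤ X := by exact_mod_cast hX1
      have hlX : 0 ≤ Real.log X := Real.log_nonneg hXr
      rcases Nat.lt_or_ge X X2 with h | h
      · have hsub : {s : ℕ × ℕ × ℕ × ℕ | IsSol X s ∧ RO s} ⊆
            {s : ℕ × ℕ × ℕ × ℕ | IsSol X2 s ∧ RO s} := fun s hs => ⟨hs.1.mono h.le, hs.2⟩
        have h1 : (({s : ℕ × ℕ × ℕ × ℕ | IsSol X s ∧ RO s}.ncard : ℕ) : ℝ) ≤ (N0 : ℝ) := by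
          exact_mod_cast Set.ncard_le_ncard hsub (hfin X2)
        have h2 : 0 ≤ Real.log X ^ m := pow_nonneg hlX m
        linarith
      · have hX3 : 3 ≤ X := le_trans (le_max_right _ _) h
        obtain ⟨f1, f2⟩ := hlarge X h
        have hr1 : 1 ≤ Nat.sqrt X := Nat.sqrt_pos.mpr (by omega)
        have hr2 : Nat.sqrt X < X := Nat.sqrt_lt_self (by omega)
        have hr3 : Nat.sqrt X ^ 2 ≤ X := Nat.sqrt_le' X
        have hr4 : X < (Nat.sqrt X + 1) ^ 2 := Nat.lt_succ_sqrt' X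
        have ih1 := ih (Nat.sqrt X) hr2 hr1
        have hsub : {s : ℕ × ℕ × ℕ × ℕ | IsSol X s ∧ RO s} ⊆
            {s : ℕ × ℕ × ℕ × ℕ | IsSol (Nat.sqrt X) s ∧ RO s} ∪
              {s : ℕ × ℕ × ℕ × ℕ | IsSol X s ∧ R X s} := by
          rintro s ⟨hs, hsR⟩
          rcases Nat.lt_or_ge X (s.2.2.1 ^ 2) with g | g
          · exact Or.inr ⟨hs, hsR, g⟩
          · left
            refine ⟨⟨hs.1, hs.2.1, hs.2.2.1, ?_, hs.2.2.2.2⟩, hsR⟩
            rw [Nat.le_sqrt, ← pow_two]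
            exact g
        have h1 : {s : ℕ × ℕ × ℕ × ℕ | IsSol X s ∧ RO s}.ncard ≤
            {s : ℕ × ℕ × ℕ × ℕ | IsSol (Nat.sqrt X) s ∧ RO s}.ncard +
              {s : ℕ × ℕ × ℕ × ℕ | IsSol X s ∧ R X s}.ncard :=
          (Set.ncard_le_ncard hsub ((hfin _).union f1)).trans (Set.ncard_union_le _ _)
        have h1' : (({s : ℕ × ℕ × ℕ × ℕ | IsSol X s ∧ RO s}.ncard : ℕ) : ℝ) ≤
            (({s : ℕ × ℕ × ℕ × ℕ | IsSol (Nat.sqrt X) s ∧ RO s}.ncard : ℕ) : ℝ) +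
              (({s : ℕ × ℕ × ℕ × ℕ | IsSol X s ∧ R X s}.ncard : ℕ) : ℝ) := by
          exact_mod_cast h1
        have hr1r : (1 : ℝ) ≤ (Nat.sqrt X : ℝ) := by exact_mod_cast hr1
        have hlog : Real.log (Nat.sqrt X) ≤ Real.log X / 2 := by
          have e1 : Real.log ((Nat.sqrt X : ℝ) ^ 2) ≤ Real.log X :=
            Real.log_le_log (by positivity) (by exact_mod_cast hr3)
          rw [Real.log_pow] at e1
          push_cast at e1
          linarith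
        have hlog2 : Real.log (Nat.sqrt X) ^ m ≤ Real.log X ^ m / 2 := by
          calc Real.log (Nat.sqrt X) ^ m ≤ (Real.log X / 2) ^ m :=
                pow_le_pow_left₀ (Real.log_nonneg hr1r) hlog m
            _ = Real.log X ^ m / 2 ^ m := div_pow _ _ _
            _ ≤ Real.log X ^ m / 2 := by
              apply div_le_div_of_nonneg_left (pow_nonneg hlX m) (by norm_num)
              calc (2 : ℝ) = 2 ^ 1 := (pow_one _).symm
                _ ≤ 2 ^ m := pow_le_pow_right₀ (by norm_num) (by omega)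
        linarith
  refine ⟨((N0 + 2 + m : ℕ) : ℝ), ?_⟩
  intro X hX
  have hset : {s : ℕ × ℕ × ℕ × ℕ | s.1.Prime ∧ s.2.2.1.Prime ∧ s.1 < s.2.2.1 ∧ s.2.2.1 ≤ X ∧
      1 ≤ s.2.1 ∧ 1 ≤ s.2.2.2 ∧ sg s.1 s.2.1 = sg s.2.2.1 s.2.2.2 ∧ Odd (sg s.1 s.2.1)} =
      {s : ℕ × ℕ × ℕ × ℕ | IsSol X s ∧ RO s} := by
    ext s
    constructor
    · rintro ⟨h1, h2, h3, h4, h5, h6, h7, h8⟩
      exact ⟨⟨h1, h2, h3, h4, h5, h6, h7⟩, h8⟩
    · rintro ⟨⟨h1, h2, h3, h4, h5, h6, h7⟩, h8⟩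
      exact ⟨h1, h2, h3, h4, h5, h6, h7, h8⟩
  rw [hset]
  refine ⟨hfin X, (key X (by omega)).trans ?_⟩
  have hXr : (3 : ℝ) ≤ X := by exact_mod_cast hX
  have hlog3 : 1 ≤ Real.log X := by
    rw [Real.le_log_iff_exp_le (by linarith)]
    have := Real.exp_one_lt_d9
    linarith
  rw [Real.rpow_natCast]
  have g1 : (1 : ℝ) ≤ Real.log X ^ m := one_le_pow₀ hlog3
  have g2 : Real.log X ^ m ≤ Real.log X ^ (N0 + 2 + m) :=
    pow_le_pow_right₀ hlog3 (by omega)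
  have g3 : (0 : ℝ) ≤ N0 := Nat.cast_nonneg _
  have g4 : (0 : ℝ) ≤ m := Nat.cast_nonneg _
  push_cast
  calc (N0 : ℝ) + 2 * Real.log X ^ m ≤ (N0 + 2) * Real.log X ^ m := by nlinarith
    _ ≤ (N0 + 2) * Real.log X ^ (N0 + 2 + m) := mul_le_mul_of_nonneg_left g2 (by positivity)
    _ ≤ (N0 + 2 + m) * Real.log X ^ (N0 + 2 + m) := by
      apply mul_le_mul_of_nonneg_right (by linarith)
      linarith

end Pool.Agent.Helper79.BT.POL
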